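import Pool.Agent.Work.MP_b2cdcf_al_h99.Norm

/-!
Acylindrical actions of polynomial automorphism groups in `n ≥ 3` variables on real trees.
-/

set_option autoImplicit false

namespace Pool.Agent.Results.MP_b2cdcf_al.AcylindricalTrees

open Pool.Agent.Work.AffTree

universe u v

/-- Let `k` be a field, `n ≥ 3`, and let `Γ` be any group of automorphisms of
`k[X_0, ..., X_(n-1)]` which contains `ElemGroup k n` (for instance the whole automorphism
group, or the tame group). In every acylindrical isometric action of `Γ` on a real tree, the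
elements of `Γ` which belong to `TameGroup k n` move a given point by a bounded distance. -/
theorem result (k : Type u) [Field k] (n : ℕ) (hn : 3 ≤ n) (Γ : Subgroup (AutP k n))
    (hΓ : ElemGroup k n ≤ Γ) (X : Type v) [MetricSpace X] [MulAction Γ X]
    [IsIsometricSMul Γ X] (hX : IsRTree X) (hA : Acyl Γ X) (x : X) :
    ∃ C : ℝ, ∀ g : Γ, (g : AutP k n) ∈ TameGroup k n → dist x (g • x) ≤ C := by
  obtain ⟨C, hC⟩ := final_bdd hX hn hΓ hA x
  exact ⟨C, fun g hg => hC g (Or.inl hg)⟩

end Pool.Agent.Results.MP_b2cdcf_al.AcylindricalTrees
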