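import Pool.Agent.Work.MP_b2cdcf_al_h99.GaInf

/-!
Acylindrical actions of polynomial automorphism groups on hyperbolic spaces: additive group
actions, their replicas and their normalisers have bounded orbits.
-/

set_option autoImplicit false

namespace Pool.Agent.Results.MP_b2cdcf_al.AdditiveGroupActions

open Pool.Agent.Work.AffTree

universe u v

/-- Let `k` be a field, `n ≥ 2`, and let `Γ` be a group of automorphisms of
`k[X_0, ..., X_(n-1)]` (for instance all of them) which acts acylindrically by isometries on a
geodesic hyperbolic space `X`. Let `α` be a nontrivial action of the additive group on affine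
`n`-space whose replicas belong to `Γ`. Then the elements of `Γ` which conjugate the replicas
of `α` into replicas of `α`, in particular the replicas themselves, move every given point by
a bounded distance. -/
theorem result (k : Type u) [Field k] (n : ℕ) (hn : 2 ≤ n) (Γ : Subgroup (AutP k n))
    (X : Type v) [MetricSpace X] [MulAction Γ X] [IsIsometricSMul Γ X] (δ : ℝ) (hδ : 0 ≤ δ)
    (hX : IsHyp X δ) (hA : Acyl Γ X) (α : GaAction k n) (hα : ∃ P, α.φ P ≠ Polynomial.C P)
    (hU : ∀ u ∈ α.replicas, u ∈ Γ) (x : X) :
    ∃ C : ℝ, ∀ g : Γ,
      (∀ u ∈ α.replicas, (g : AutP k n)⁻¹ * u * (g : AutP k n) ∈ α.replicas) →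
      dist x (g • x) ≤ C :=
  normaliser_bdd hX hδ hA hn α hα hU x

end Pool.Agent.Results.MP_b2cdcf_al.AdditiveGroupActions
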