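import Pool.Agent.Work.MP_b2cdcf_al_h99.Norm

/-!
Isometric actions of polynomial automorphism groups in `n ≥ 3` variables on real trees:
elementary automorphisms act locally elliptically.
-/

set_option autoImplicit false

namespace Pool.Agent.Results.MP_b2cdcf_al.TreeFixedPoints

open Pool.Agent.Work.AffTree

universe u v

/-- Let `k` be a field, `n ≥ 3`, and let `Γ` be any group of automorphisms of
`k[X_0, ..., X_(n-1)]` which contains `ElemGroup k n` (for instance the whole automorphism
group, or the tame group). If `Γ` acts by isometries on a real tree, then every finite set of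
elements of `ElemGroup k n` has a common fixed point. -/
theorem result (k : Type u) [Field k] (n : ℕ) (hn : 3 ≤ n) (Γ : Subgroup (AutP k n))
    (hΓ : ElemGroup k n ≤ Γ) (X : Type v) [MetricSpace X] [Nonempty X] [MulAction Γ X]
    [IsIsometricSMul Γ X] (hX : IsRTree X) (F : Finset Γ)
    (hF : ∀ g ∈ F, (g : AutP k n) ∈ ElemGroup k n) :
    ∃ x : X, ∀ g ∈ F, g • x = x := by
  obtain ⟨x0⟩ := (inferInstance : Nonempty X)
  exact loc_ell hX hn hΓ x0 F hF

end Pool.Agent.Results.MP_b2cdcf_al.TreeFixedPoints
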