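import Pool.Agent.Work.MP_b2cdcf_wpd.Final

/-!
MP_b2cdcf_al: an automorphism of the polynomial ring in `n ≥ 3` variables over an arbitrary field
which is a loxodromic WPD element of the full group `Aut k[X_0, ..., X_(n-1)]` for the degree length.
-/

set_option autoImplicit false

open MvPolynomial

namespace Pool.Agent.Results.MP_b2cdcf_al.WPDElement

open Pool.Agent.Work.MP_b2cdcf_wpd

/-- Let `k` be a field, `n ≥ 3`, `d ≥ 2 n` with `d ≠ 0` in `k`, and let `F` be the automorphism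
`X_1 ↦ X_0 + ∑_{j ≠ 0} X_j^d`, `X_i ↦ X_(i-1)` for `i ≠ 1` (indices modulo `n`). Write `mdeg` for the
largest degree of a component. Then
(a) for every automorphism `φ` the function `m ↦ mdeg (φ F^m)` on the integers is V shaped: on both
sides of some `b` it is multiplied by exactly `d` at each step away from `b`;
(b) WPD: for every `B` and all large `M`, each automorphism `φ` such that `φ`, `φ⁻¹`, `F^M φ F^(-M)`
and `F^M φ⁻¹ F^(-M)` have degree at most `B` is `β F^b` with `β^(d-1) = 1` and `d^|b| ≤ B`;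
(c) if `φ F^i = F^j φ` with `i ≥ 1` then `j = i` or `j = -i`, and in the first case
`φ = β F^b` with `β^(d-1) = 1`. -/
theorem result (k : Type) [Field k] (n d : ℕ) [NeZero n] (hn : 3 ≤ n) (hd : 2 * n ≤ d)
    (hdk : (d : k) ≠ 0) :
    ∃ F : AutP k n,
      F (X 1) = X 0 + ∑ j ∈ Finset.univ.erase 0, X j ^ d ∧ (∀ i, i ≠ 1 → F (X i) = X (i - 1)) ∧
      (∀ φ : AutP k n, ∃ b : ℤ,
        (∀ m : ℤ, b < m → mdeg (φ * F ^ (m + 1)) = d * mdeg (φ * F ^ m)) ∧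
        (∀ m : ℤ, m < b → mdeg (φ * F ^ (m - 1)) = d * mdeg (φ * F ^ m))) ∧
      (∀ B : ℕ, ∃ M₀ : ℕ, ∀ M : ℕ, M₀ ≤ M → ∀ φ : AutP k n,
        mdeg φ ≤ B → mdeg φ⁻¹ ≤ B → mdeg (F ^ M * φ * (F ^ M)⁻¹) ≤ B →
        mdeg (F ^ M * φ⁻¹ * (F ^ M)⁻¹) ≤ B →
        ∃ (β : k) (b : ℤ), β ^ (d - 1) = 1 ∧ d ^ b.natAbs ≤ B ∧
          ∀ i, φ (X i) = C β * (F ^ b) (X i)) ∧
      (∀ (φ : AutP k n) (i : ℕ) (j : ℤ), 1 ≤ i → φ * F ^ i = F ^ j * φ →
        (j = i ∨ j = -(i : ℤ)) ∧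
        (j = i → ∃ (β : k) (b : ℤ), β ^ (d - 1) = 1 ∧ ∀ i, φ (X i) = C β * (F ^ b) (X i))) := by
  have ctx := t_CTX k n d (by omega) hd hdk
  have hβ0 : ∀ β : k, β ^ (d - 1) = 1 → β ≠ 0 := by
    intro β hβ h0
    rw [h0, zero_pow (by omega)] at hβ
    exact zero_ne_one hβ
  refine ⟨FF k n d, FF_one d, fun i hi => FF_ne d hi, final_vee ctx, ?_, ?_⟩
  · intro B
    obtain ⟨M₀, h⟩ := t_WPD k n d hn hd hdk B
    refine ⟨M₀, fun M hM φ h1 h2 h3 h4 => ?_⟩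
    obtain ⟨β, b, hβ, hφ⟩ := h M hM φ h1 h2 h3 h4
    refine ⟨β, b, hβ, ?_, hφ⟩
    rw [← ctx.mdeg_zpow b, ← mdeg_homothety φ _ β (hβ0 β hβ) hφ]
    exact h1
  · intro φ i j hi hij
    have habs := final_abs ctx φ i j hij
    refine ⟨by omega, fun hj => ?_⟩
    subst hj
    rw [zpow_natCast] at hij
    obtain ⟨M₀, h⟩ := t_WPD k n d hn hd hdk (max (mdeg φ) (mdeg φ⁻¹))
    have hc : Commute φ (FF k n d ^ (i * M₀)) := by
      rw [pow_mul]
      exact Commute.pow_right hij M₀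
    have hM : M₀ ≤ i * M₀ := Nat.le_mul_of_pos_left M₀ hi
    have e1 : FF k n d ^ (i * M₀) * φ * (FF k n d ^ (i * M₀))⁻¹ = φ := by
      rw [← hc.eq, mul_inv_cancel_right]
    have e2 : FF k n d ^ (i * M₀) * φ⁻¹ * (FF k n d ^ (i * M₀))⁻¹ = φ⁻¹ := by
      rw [← hc.inv_left.eq, mul_inv_cancel_right]
    exact h (i * M₀) hM φ (le_max_left _ _) (le_max_right _ _)
      (by rw [e1]; exact le_max_left _ _) (by rw [e2]; exact le_max_right _ _)

end Pool.Agent.Results.MP_b2cdcf_al.WPDElement
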